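import Pool.Agent.Lib_helper50.A56.TDefs

/-!
# MP_a55cb8: hypotheses on the input (definitions; helper50)
-/

open Matrix Finset

namespace A56

section

variable (c : Cst) (x : InT.den) (A0 : CooT.den) (b : VecT.den)
  (A : Matrix (Fin x.1.1) (Fin x.1.1) ℝ) (xs : Fin x.1.1 → ℝ) (sg sn : ℝ)

/-- the hypotheses on the input -/
structure InOK : Prop where
  Aok : CooOK x.1.1 x.1.1 A0
  len : A0.1 = x.2.1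
  simple : ∀ i j, ((range A0.1).filter fun e => A0.2.1 e = i ∧ A0.2.2.1 e = j).card ≤ 1
  matA : toM x.1.1 x.1.1 (cooA A0) = A
  sol : A *ᵥ xs = toV x.1.1 b
  lowA : ∀ v, sn * sq v ≤ sq (A *ᵥ v)
  headA : ∃ V : Submodule ℝ (Fin x.1.1 → ℝ), Module.finrank ℝ V ≤ x.1.2 ∧
    ∀ v, (∀ u ∈ V, u ⬝ᵥ v = 0) → sq (A *ᵥ v) ≤ sg * sq v
  sn_pos : 0 < sn
  sg_pos : 0 < sg
  sg_le : sg ≤ (x.2.2.1 : ℝ) ^ 2 * sn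
  h1 : 1 ≤ x.2.2.1
  h2 : x.2.2.1 < x.1.2
  h3 : x.1.2 < x.1.1
  h4 : x.1.1 ≤ x.2.1
  h5 : x.2.1 ≤ x.1.1 ^ 2
  h6 : x.2.2.1 * x.1.2 ≤ x.2.1

/-- the sketch `T0` is good -/
def GoodT0 (T0 : CooT.den) : Prop :=
  SkOK x.1.1 (pl c x) (pm1 c x) T0 ∧
  (∀ y, sq (toM (pm1 c x) x.1.1 (cooA T0) *ᵥ y) ≤ (x.1.1 * pl c x : ℝ) * sq y) ∧
  ∃ V : Submodule ℝ (Fin x.1.1 → ℝ), Module.finrank ℝ V ≤ x.1.2 ∧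
    (∀ v, (∀ u ∈ V, u ⬝ᵥ v = 0) → sq (A *ᵥ v) ≤ sg * sq v) ∧
    ∀ v ∈ V, sq v ≤ (16 * (x.1.1 + 1 : ℝ)) ^ (pl c x + 1) *
      sq (toM (pm1 c x) x.1.1 (cooA T0) *ᵥ v)

end

end A56
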