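import Pool.Agent.Lib_helper50.A56.B.D1a
import Pool.Agent.Lib_helper50.A56.B.D1b
import Pool.Agent.Lib_helper50.A56.B.D2
import Pool.Agent.Lib_helper50.A56.B.D3
import Pool.Agent.Lib_helper50.A56.B.D4
import Pool.Agent.Lib_helper50.A56.B.D5
import Pool.Agent.Lib_helper50.A56.B.D6
import Pool.Agent.Lib_helper50.A56.B.D7a
import Pool.Agent.Lib_helper50.A56.B.D7b
import Pool.Agent.Lib_helper50.A56.B.D8
import Pool.Agent.Lib_helper50.A56.B.D9
import Pool.Agent.Lib_helper50.A56.B.D10
import Pool.Agent.Lib_helper50.A56.B.D11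

/-!
# MP_a55cb8: the deterministic layer (all blocks proved)
-/
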