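import Pool.Agent.Lib_helper50.A56.Alg

/-!
# MP_a55cb8: parameters and the whole algorithm (helper50)
-/

open Matrix Finset

namespace A56

/-- constants of the program: `l = log2 n + c1`, `K = 4^(ct log2 l)`, `Bd = l^cB`, and `ch` for
the threshold of heavy indices -/
structure Cst where
  c1 : ℕ
  ct : ℕ
  cB : ℕ
  ch : ℕ

/-- the input data: `((n, k), (N, (κ, q)))` -/
abbrev InT : Ty := .prod (.prod .nat .nat) (.prod .nat (.prod .nat .nat))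

section

variable (c : Cst) (x : InT.den)

def pl : ℕ := Nat.log2 x.1.1 + c.c1
def ptau : ℕ := c.ct * Nat.log2 (pl c x)
def pK : ℕ := 4 ^ ptau c x
def pb1 : ℕ := Nat.log2 (16 * (x.1.2 + 1) * pl c x ^ 6) + 1
def pm1 : ℕ := pl c x * 2 ^ pb1 c x
def pb2 : ℕ := Nat.log2 (16 * (pm1 c x + 1) * pl c x ^ 6) + 1
def pm2 : ℕ := pl c x * 2 ^ pb2 c x
/-- bound for the dimension of the head -/
def pkk : ℕ := x.1.2 + pm1 c x
def pb3 : ℕ := Nat.log2 (16 * (pkk c x + 1) * pl c x ^ 6) + 1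
def pk3 : ℕ := pl c x * 2 ^ pb3 c x
def pBd : ℕ := pl c x ^ c.cB
def phcap : ℕ := pBd c x * (x.1.2 + 1)
def ps : ℕ := Nat.log2 (phcap c x + pm2 c x + pk3 c x) + 1
def pM : ℕ := pl c x ^ 6
/-- `2 (1/2)^t ≤ d = 4^(-l^5)` -/
def pt : ℕ := 2 * pl c x ^ 5 + 2
def pdeg1 : ℕ := pl c x * pt c x
def pdegK : ℕ := pl c x * 2 ^ ptau c x * pt c x
def pmout : ℕ := 3 * pl c x * 2 ^ ptau c x * x.2.2.1 * (x.2.2.2 + pl c x ^ 3 + pl c x + 1)
/-- the smallest `b` with `K^(3b) (κ k)² ≥ N²` -/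
def pbA : ℕ := ∑ b ∈ range (pl c x),
  if pK c x ^ (3 * b) * (x.2.2.1 * x.1.2) ^ 2 < x.2.1 ^ 2 then 1 else 0
/-- the smallest `b` with `K^b k ≥ n` or `K^(2b) k ≥ N` -/
def pbB : ℕ := ∑ b ∈ range (pl c x),
  if pK c x ^ b * x.1.2 < x.1.1 then
    (if pK c x ^ (2 * b) * x.1.2 < x.2.1 then 1 else 0) else 0
/-- the mode of the base solver: `1` = exact, `0` = subspace iteration -/
def pmd : ℕ := if pbB c x < pbA c x + 1 then 1 else 0
/-- the length of the chain -/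
def pbb : ℕ := if pbB c x < pbA c x + 1 then pbB c x else pbA c x
def ph : ℕ := ptau c x * pbb c x - c.ch * Nat.log2 (pl c x)
def pW : ℕ := x.1.1 * pl c x ^ 8

/-- the natural parameters -/
def parN : ℕ → ℕ := fun i =>
  ([x.1.1, x.1.2, x.2.1, x.2.2.1, x.2.2.2, pl c x, pb1 c x, pm1 c x, pb2 c x, pm2 c x, pb3 c x,
    pk3 c x, ps c x, pM c x, pK c x, pl c x ^ 3, pdeg1 c x, pdegK c x, pl c x ^ 3, pmout c x,
    pBd c x, pbb c x, ph c x, pW c x, phcap c x, pmd c x, pK c x ^ pbb c x] : List ℕ).getD i 0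

/-- the real parameters -/
noncomputable def parQ : ℕ → ℝ := fun i =>
  ([(pl c x : ℝ) ^ 100, (4 * (pl c x : ℝ) ^ 30)⁻¹, (pl c x : ℝ)⁻¹,
    ((pl c x : ℝ) * (pK c x : ℝ))⁻¹, (pl c x : ℝ),
    (4 * (pl c x : ℝ) * (pK c x : ℝ) * (x.2.2.1 : ℝ) ^ 2)⁻¹,
    ((2 : ℝ) ^ (x.2.2.2 + pl c x ^ 3) * (x.2.2.1 : ℝ))⁻¹ ^ 2] : List ℝ).getD i 0

/-- weight of the computation of the parameters -/
def wPar : ℕ := x.1.1 + (x.1.2 + 1) * pl c x ^ (c.cB + 40) + x.2.2.2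

end

section

variable {mm : ℕ → ℕ} (Φ : Lib mm) (c : Cst)

/-- the global data; input `((n, k), (N, (κ, q)))`, the matrix, the right side, the bits -/
noncomputable def glob (x : InT.den) (A0 : CooT.den) (b : VecT.den) (r : ℕ → ℕ) : GT.den :=
  let l := pl c x
  let T0 := Φ.sk (x.1.1, (l, (pb1 c x, win (pW c x) r 0)))
  let S0 := Φ.sk (x.1.1, (l, (pb2 c x, win (pW c x) r 1)))
  let E := elimE Φ x.1.1 l (ps c x) (pm1 c x) (pm2 c x) A0 T0 S0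
  let lam0 := topLam Φ (pM c x) E (Φ.sgns ((pM c x, x.1.1), win (pW c x) r 2))
  ((parN c x, (parQ c x, tabV .real (l ^ 3 + 2) (fun i => lam0 * ((pK c x : ℝ)⁻¹) ^ i))),
    ((E, (T0, S0)), (b, elimB Φ E S0 b)))

/-- the program in the main case -/
noncomputable def algC (x : InT.den) (A0 : CooT.den) (b : VecT.den) (r : ℕ → ℕ) : VecT.den :=
  let g := glob Φ c x A0 b r
  if 0 < Φ.dot (x.1.1, (g.2.2.2, g.2.2.2)) then (loop Φ g r).1.2
  else elimX Φ (gE g) g.2.1.2.1 g.2.1.2.2 b (fun _ => 0)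

end

end A56
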