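import Mathlib

/-!
# A small programming language for exact real arithmetic, its cost semantics, and the problem

`Tm t` is the type of program texts of type `t`: finite objects in which variables and procedures
are named by natural numbers and the only constants are natural numbers.  `P.eval ρ` is the pair
(result, cost) of the program `P` in the environment `ρ`: every arithmetic operation, every
comparison, every variable access, every array access and update, every procedure call costs one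
unit each time it is performed.  All programs terminate (there are only `for` loops and
recursions of prescribed depth).  There are no square roots, no rounding and no real constants.
-/

open Matrix

namespace A56

/-- Types: natural numbers (sizes, indices, counters), real numbers, arrays, pairs. -/
inductive Ty where
  | nat : Ty
  | real : Ty
  | arr : Ty → Ty
  | prod : Ty → Ty → Ty
  deriving DecidableEq

/-- Values of a type.  An array is a sequence indexed by the natural numbers. -/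
@[reducible] def Ty.den : Ty → Type
  | .nat => ℕ
  | .real => ℝ
  | .arr t => ℕ → t.den
  | .prod s t => s.den × t.den

/-- Default value of a type. -/
def Ty.default : (t : Ty) → t.den
  | .nat => (0 : ℕ)
  | .real => (0 : ℝ)
  | .arr t => fun _ => t.default
  | .prod s t => (s.default, t.default)

/-- Program texts. -/
inductive Tm : Ty → Type where
  /-- the variable of type `t` with name `x` -/
  | var (t : Ty) (x : ℕ) : Tm t
  /-- `let x := a in b` -/
  | letE {s t : Ty} (x : ℕ) (a : Tm s) (b : Tm t) : Tm t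
  /-- natural number constants -/
  | nlit (m : ℕ) : Tm .nat
  /-- operations on natural numbers -/
  | nadd (a b : Tm .nat) : Tm .nat
  | nsub (a b : Tm .nat) : Tm .nat
  | nmul (a b : Tm .nat) : Tm .nat
  /-- `if a < b then c else d` for natural numbers `a`, `b` -/
  | ifN {t : Ty} (a b : Tm .nat) (c d : Tm t) : Tm t
  /-- a natural number as a real number -/
  | cast (a : Tm .nat) : Tm .real
  /-- arithmetic operations on real numbers (`x / 0 = 0`) -/
  | add (a b : Tm .real) : Tm .real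
  | sub (a b : Tm .real) : Tm .real
  | mul (a b : Tm .real) : Tm .real
  | div (a b : Tm .real) : Tm .real
  /-- `if a < b then c else d` for real numbers `a`, `b` -/
  | ifLt {t : Ty} (a b : Tm .real) (c d : Tm t) : Tm t
  /-- the array of the values of `f` for `i = 0, ..., n-1` -/
  | tab {t : Ty} (n : Tm .nat) (i : ℕ) (f : Tm t) : Tm (.arr t)
  /-- array access -/
  | get {t : Ty} (a : Tm (.arr t)) (i : Tm .nat) : Tm t
  /-- the array `a` with its entry number `i` replaced by `v` -/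
  | upd {t : Ty} (a : Tm (.arr t)) (i : Tm .nat) (v : Tm t) : Tm (.arr t)
  /-- pairs -/
  | pair {s t : Ty} (a : Tm s) (b : Tm t) : Tm (.prod s t)
  | fst {s t : Ty} (a : Tm (.prod s t)) : Tm s
  | snd {s t : Ty} (a : Tm (.prod s t)) : Tm t
  /-- `x := a; for i = 0, ..., n-1 do x := b; return x` -/
  | iter {t : Ty} (n : Tm .nat) (a : Tm t) (i x : ℕ) (b : Tm t) : Tm t
  /-- call of the procedure named `f` with argument `a` -/
  | call {s t : Ty} (f : ℕ) (a : Tm s) : Tm t
  /-- recursion of depth `n`: the procedure `f_0` computes `a`, the procedure `f_(j+1)` computes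
  `b`, where `b` may call `f_j` under the name `f` (and `j` is the value of the variable `i`);
  the argument of the procedures is the variable `x`; return `f_n c` -/
  | recE {s t : Ty} (n : Tm .nat) (f i x : ℕ) (a b : Tm t) (c : Tm s) : Tm t

/-- Environments: a value for every variable, a procedure for every procedure name.  (The value
of a procedure at an argument is the pair of its result and the cost of the call.) -/
structure Env where
  val : (t : Ty) → ℕ → t.den
  fn : (s t : Ty) → ℕ → s.den → t.den × ℕ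

/-- Change the value of the variable `x` of type `s`. -/
def Env.set (ρ : Env) (s : Ty) (x : ℕ) (v : s.den) : Env :=
  { ρ with val := fun t y => if h : s = t ∧ y = x then h.1 ▸ v else ρ.val t y }

/-- Change the procedure named `f` of type `s → t`. -/
def Env.setFn (ρ : Env) (s t : Ty) (f : ℕ) (F : s.den → t.den × ℕ) : Env :=
  { ρ with fn := fun s' t' g => if h : (s = s' ∧ t = t') ∧ g = f then
      h.1.1 ▸ h.1.2 ▸ F else ρ.fn s' t' g }

/-- Result and cost of `for i = 0, ..., n-1 do x := F i x`. -/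
def iterRun {α : Type} (F : ℕ → α → α × ℕ) (x : α) : ℕ → α × ℕ
  | 0 => (x, 0)
  | n + 1 => ((F n (iterRun F x n).1).1, (iterRun F x n).2 + (F n (iterRun F x n).1).2 + 1)

open Classical in
/-- Result and cost of a program in an environment. -/
noncomputable def Tm.eval : {t : Ty} → Tm t → Env → t.den × ℕ
  | _, .var t x, ρ => (ρ.val t x, 1)
  | _, .letE (s := s) x a b, ρ =>
      ((b.eval (ρ.set s x (a.eval ρ).1)).1,
        1 + (a.eval ρ).2 + (b.eval (ρ.set s x (a.eval ρ).1)).2)
  | _, .nlit m, _ => (m, 1)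
  | _, .nadd a b, ρ => ((a.eval ρ).1 + (b.eval ρ).1, 1 + (a.eval ρ).2 + (b.eval ρ).2)
  | _, .nsub a b, ρ => ((a.eval ρ).1 - (b.eval ρ).1, 1 + (a.eval ρ).2 + (b.eval ρ).2)
  | _, .nmul a b, ρ => ((a.eval ρ).1 * (b.eval ρ).1, 1 + (a.eval ρ).2 + (b.eval ρ).2)
  | _, .ifN a b c d, ρ =>
      if (a.eval ρ).1 < (b.eval ρ).1 then
        ((c.eval ρ).1, 1 + (a.eval ρ).2 + (b.eval ρ).2 + (c.eval ρ).2)
      else ((d.eval ρ).1, 1 + (a.eval ρ).2 + (b.eval ρ).2 + (d.eval ρ).2)
  | _, .cast a, ρ => ((((a.eval ρ).1 : ℕ) : ℝ), 1 + (a.eval ρ).2)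
  | _, .add a b, ρ => ((a.eval ρ).1 + (b.eval ρ).1, 1 + (a.eval ρ).2 + (b.eval ρ).2)
  | _, .sub a b, ρ => ((a.eval ρ).1 - (b.eval ρ).1, 1 + (a.eval ρ).2 + (b.eval ρ).2)
  | _, .mul a b, ρ => ((a.eval ρ).1 * (b.eval ρ).1, 1 + (a.eval ρ).2 + (b.eval ρ).2)
  | _, .div a b, ρ => ((a.eval ρ).1 / (b.eval ρ).1, 1 + (a.eval ρ).2 + (b.eval ρ).2)
  | _, .ifLt a b c d, ρ =>
      if (a.eval ρ).1 < (b.eval ρ).1 then
        ((c.eval ρ).1, 1 + (a.eval ρ).2 + (b.eval ρ).2 + (c.eval ρ).2)
      else ((d.eval ρ).1, 1 + (a.eval ρ).2 + (b.eval ρ).2 + (d.eval ρ).2)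
  | _, .tab (t := t) n x f, ρ =>
      (fun i : ℕ => if i < (n.eval ρ).1 then (f.eval (ρ.set .nat x i)).1 else t.default,
        1 + (n.eval ρ).2 + ∑ i ∈ Finset.range (n.eval ρ).1, (f.eval (ρ.set .nat x i)).2)
  | _, .get a i, ρ => ((a.eval ρ).1 (i.eval ρ).1, 1 + (a.eval ρ).2 + (i.eval ρ).2)
  | _, .upd a i v, ρ =>
      (Function.update (a.eval ρ).1 (i.eval ρ).1 (v.eval ρ).1,
        1 + (a.eval ρ).2 + (i.eval ρ).2 + (v.eval ρ).2)
  | _, .pair a b, ρ => (((a.eval ρ).1, (b.eval ρ).1), 1 + (a.eval ρ).2 + (b.eval ρ).2)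
  | _, .fst a, ρ => ((a.eval ρ).1.1, 1 + (a.eval ρ).2)
  | _, .snd a, ρ => ((a.eval ρ).1.2, 1 + (a.eval ρ).2)
  | _, .iter (t := t) n a i x b, ρ =>
      ((iterRun (fun j v => b.eval ((ρ.set .nat i j).set t x v)) (a.eval ρ).1 (n.eval ρ).1).1,
        1 + (n.eval ρ).2 + (a.eval ρ).2 +
          (iterRun (fun j v => b.eval ((ρ.set .nat i j).set t x v)) (a.eval ρ).1
            (n.eval ρ).1).2)
  | t, .call (s := s) f a, ρ =>
      ((ρ.fn s t f (a.eval ρ).1).1, 1 + (a.eval ρ).2 + (ρ.fn s t f (a.eval ρ).1).2)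
  | t, .recE (s := s) n f i x a b c, ρ =>
      let F : ℕ → s.den → t.den × ℕ := fun m => Nat.rec
        (fun u => a.eval (ρ.set s x u))
        (fun j F' u => b.eval (((ρ.set s x u).set .nat i j).setFn s t f F')) m
      ((F (n.eval ρ).1 (c.eval ρ).1).1,
        1 + (n.eval ρ).2 + (c.eval ρ).2 + (F (n.eval ρ).1 (c.eval ρ).1).2)

/-! ## The problem -/

/-- The `j`-th largest singular value (`j = 0, ..., n-1`) of a real square matrix. -/
noncomputable def sval {n : ℕ} (A : Matrix (Fin n) (Fin n) ℝ) (j : ℕ) : ℝ :=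
  if h : j < n then
    Real.sqrt ((Matrix.isHermitian_conjTranspose_mul_self A).eigenvalues₀
      ⟨j, by simpa using h⟩)
  else 0

/-- The initial environment.  Natural numbers: `n` (variable `0`), `k` (variable `1`), the number
`N` of nonzero entries (variable `2`), `κ` (variable `3`), the accuracy `q` (variable `4`);
arrays of natural numbers: the row indices (variable `0`) and column indices (variable `1`) of
the nonzero entries, the random bits (variable `2`); arrays of real numbers: the values of the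
nonzero entries (variable `0`), the right hand side `b` (variable `1`). -/
noncomputable def input {n N m : ℕ} (k κ q : ℕ) (A : Matrix (Fin n) (Fin n) ℝ) (b : Fin n → ℝ)
    (e : Fin N ≃ {p : Fin n × Fin n // A p.1 p.2 ≠ 0}) (r : Fin m → Bool) : Env :=
  let ρ₀ : Env := ⟨fun t _ => t.default, fun _ t _ _ => (t.default, 0)⟩
  let ρ₁ := ((((ρ₀.set .nat 0 n).set .nat 1 k).set .nat 2 N).set .nat 3 κ).set .nat 4 q
  let ρ₂ := (ρ₁.set (.arr .nat) 0 fun i => if h : i < N then ((e ⟨i, h⟩).1.1 : ℕ) else 0).set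
    (.arr .nat) 1 fun i => if h : i < N then ((e ⟨i, h⟩).1.2 : ℕ) else 0
  let ρ₃ := ρ₂.set (.arr .nat) 2 fun i => if h : i < m then (r ⟨i, h⟩).toNat else 0
  (ρ₃.set (.arr .real) 0 fun i => if h : i < N then A (e ⟨i, h⟩).1.1 (e ⟨i, h⟩).1.2 else 0).set
    (.arr .real) 1 fun i => if h : i < n then b ⟨i, h⟩ else 0

/-- Euclidean norm. -/
noncomputable def nrm {n : ℕ} (x : Fin n → ℝ) : ℝ := Real.sqrt (∑ i, x i ^ 2)

/-- The program `Mul` multiplies `m × m` matrices (variables `0` and `1` of type matrix, the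
number `m` is the natural variable `0`) with at most `c (m+1)^w` operations. -/
def IsMul (Mul : Tm (.arr (.arr .real))) (c : ℕ) (w : ℝ) : Prop :=
  ∀ (m : ℕ) (ρ : Env), ρ.val .nat 0 = m →
    (∀ i < m, ∀ j < m, (Mul.eval ρ).1 i j =
      ∑ l ∈ Finset.range m, ρ.val (.arr (.arr .real)) 0 i l * ρ.val (.arr (.arr .real)) 1 l j) ∧
    ((Mul.eval ρ).2 : ℝ) ≤ c * (m + 1 : ℝ) ^ w

/-- The bound `k^w + κ N + min {k N, k³, κ^(2/3-φ) k^(5/3-φ) N^(1/3+φ),
κ k^(3/2-φ) n^(1/2+φ), κ k^(7/4-φ) N^(1/4+φ)}`. -/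
noncomputable def bnd (w φ κ : ℝ) (n k N : ℕ) : ℝ :=
  (k : ℝ) ^ w + κ * N + min (min ((k : ℝ) * N) ((k : ℝ) ^ (3 : ℝ)))
    (min (κ ^ (2 / 3 - φ) * (k : ℝ) ^ (5 / 3 - φ) * (N : ℝ) ^ (1 / 3 + φ))
      (min (κ * (k : ℝ) ^ (3 / 2 - φ) * (n : ℝ) ^ (1 / 2 + φ))
        (κ * (k : ℝ) ^ (7 / 4 - φ) * (N : ℝ) ^ (1 / 4 + φ))))

/-- One program `P` solves, for all `n`, `k < n`, `κ`, `0 < ε < 1`, all invertible `A` with
`σ_(k+1) ≤ κ σ_n` (given by the list of the `N` nonzero entries) and all `b`, the system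
`A x = b` to relative accuracy `ε` with probability at least `2/3`, and on every string of random
bits its cost is at most `C bnd (1 + log (n κ / ε))^C`. -/
def MainW (w φ : ℝ) : Prop :=
  ∃ (P : Tm (.arr .real)) (C : ℕ), ∀ (n k N : ℕ) (κ ε : ℝ) (A : Matrix (Fin n) (Fin n) ℝ)
    (b : Fin n → ℝ) (e : Fin N ≃ {p : Fin n × Fin n // A p.1 p.2 ≠ 0}),
    IsUnit A.det → k < n → sval A k ≤ κ * sval A (n - 1) → 0 < ε → ε < 1 →
    ∀ m : ℕ, C * bnd w φ κ n k N * (1 + Real.log (n * κ / ε)) ^ C ≤ m →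
    (∀ r : Fin m → Bool,
      ((P.eval (input k ⌈κ⌉₊ ⌈Real.logb 2 (1 / ε)⌉₊ A b e r)).2 : ℝ) ≤
        C * bnd w φ κ n k N * (1 + Real.log (n * κ / ε)) ^ C) ∧
    (2 / 3 : ℝ) * 2 ^ m ≤ (Fintype.card {r : Fin m → Bool //
      nrm (fun i : Fin n => (P.eval (input k ⌈κ⌉₊ ⌈Real.logb 2 (1 / ε)⌉₊ A b e r)).1 i -
        (A⁻¹ *ᵥ b) i) ≤ ε * nrm (A⁻¹ *ᵥ b)} : ℝ)

end A56
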